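import Pool.Agent.Q58.LU.Zero

/-!
# Project LU: the adjoint action on the basis; smooth matrix valued functions
-/

set_option autoImplicit false
set_option linter.unusedSectionVars false

namespace Pool.Agent.Q58.LU

open MeasureTheory Matrix Set Filter Topology Pool.Agent.Q77.LU
open scoped ContDiff Matrix.Norms.Frobenius

noncomputable section

/-- conjugate transpose as a real linear map -/
def ctL (N : ℕ) : Mt N →L[ℝ] Mt N :=
  LinearMap.toContinuousLinearMap
    { toFun := fun A => Aᴴ
      map_add' := fun A B => conjTranspose_add A B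
      map_smul' := fun c A => by
        ext i j
        simp [conjTranspose_apply] }

lemma ctL_apply {N : ℕ} (A : Mt N) : ctL N A = Aᴴ := rfl

/-- real part of the trace as a real linear map -/
def rtr (N : ℕ) : Mt N →L[ℝ] ℝ :=
  LinearMap.toContinuousLinearMap
    { toFun := fun M => (trace M).re
      map_add' := fun M M' => by rw [trace_add, Complex.add_re]
      map_smul' := fun c M => by
        rw [trace_smul, RingHom.id_apply]
        simp }

lemma rtr_apply {N : ℕ} (M : Mt N) : rtr N M = (trace M).re := rfl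

/-- the real scalar product of matrices -/
def ip {N : ℕ} (A M : Mt N) : ℝ := (trace (Aᴴ * M)).re

lemma ip_comm {N : ℕ} (A B : Mt N) : ip A B = ip B A := by
  have h : trace (Bᴴ * A) = star (trace (Aᴴ * B)) := by
    rw [← trace_conjTranspose, conjTranspose_mul, conjTranspose_conjTranspose]
  simp only [ip]
  rw [h]; simp

lemma ip_add_right {N : ℕ} (A B B' : Mt N) : ip A (B + B') = ip A B + ip A B' := by
  simp only [ip]
  rw [mul_add, trace_add, Complex.add_re]

lemma ip_smul_right {N : ℕ} (A B : Mt N) (c : ℝ) : ip A (c • B) = c * ip A B := by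
  simp only [ip]
  rw [mul_smul_comm, trace_smul]
  simp

lemma ip_sum_right {N : ℕ} {κ : Type*} (s : Finset κ) (A : Mt N) (B : κ → Mt N) :
    ip A (∑ k ∈ s, B k) = ∑ k ∈ s, ip A (B k) := by
  classical
  induction s using Finset.induction_on with
  | empty => simp [ip]
  | insert a s ha ih => rw [Finset.sum_insert ha, Finset.sum_insert ha, ip_add_right, ih]

lemma ip_smul_left {N : ℕ} (A B : Mt N) (c : ℝ) : ip (c • A) B = c * ip A B := by
  rw [ip_comm, ip_smul_right, ip_comm]

lemma ip_sum_left {N : ℕ} {κ : Type*} (s : Finset κ) (A : Mt N) (B : κ → Mt N) :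
    ip (∑ k ∈ s, B k) A = ∑ k ∈ s, ip (B k) A := by
  rw [ip_comm, ip_sum_right]
  exact Finset.sum_congr rfl fun k _ => ip_comm _ _

lemma ip_self {N : ℕ} (A : Mt N) : ip A A = fro2 A := rfl

lemma ip_conj {N : ℕ} (U A B : Mt N) : ip A (U * B * Uᴴ) = ip (Uᴴ * A * U) B := by
  simp only [ip]
  have h : (Uᴴ * A * U)ᴴ * B = Uᴴ * (Aᴴ * U * B) := by
    rw [conjTranspose_mul, conjTranspose_mul, conjTranspose_conjTranspose]; noncomm_ring
  have h2 : Aᴴ * (U * B * Uᴴ) = Aᴴ * U * B * Uᴴ := by noncomm_ring
  rw [h, h2, trace_mul_comm]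

/-- the squared norm is invariant under conjugation by unitary matrices -/
lemma fro2_conj {N : ℕ} {U : Mt N} (hU : Uᴴ * U = 1) (A : Mt N) :
    fro2 (U * A * Uᴴ) = fro2 A := by
  rw [← ip_self, ip_conj, ← ip_self]
  congr 1
  calc Uᴴ * (U * A * Uᴴ) * U = (Uᴴ * U) * A * (Uᴴ * U) := by noncomm_ring
    _ = A := by rw [hU, one_mul, mul_one]

section

variable {N n D l : ℕ} {G : Subgroup (UU N)}

lemma exp_zero_link (B : LieBasis G n) (a : Fin n) : B.ex a 0 = 1 := by
  apply mt_inj
  rw [B.ex_eq, zero_smul, NormedSpace.exp_zero, mt_one]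

lemma hasDeriv_ex (B : LieBasis G n) (a : Fin n) :
    HasDerivAt (fun t => mt (B.ex a t)) (B.X a) 0 := by
  have h1 : (fun t => mt (B.ex a t)) = fun t : ℝ => NormedSpace.exp (t • B.X a) := by
    funext t; exact B.ex_eq a t
  rw [h1]
  have h2 := hasDerivAt_exp_smul_const (𝕂 := ℝ) (B.X a) (0 : ℝ)
  rwa [zero_smul, NormedSpace.exp_zero, one_mul] at h2

lemma skewX (B : LieBasis G n) (a : Fin n) : (B.X a)ᴴ = -B.X a := by
  have h1 := hasDeriv_ex B a
  have h2 : HasDerivAt (fun t => (mt (B.ex a t))ᴴ) ((B.X a)ᴴ) 0 :=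
    (ctL N).hasFDerivAt.comp_hasDerivAt (0 : ℝ) h1
  have h3 := h1.mul h2
  have h4 : (fun t => mt (B.ex a t)) * (fun t => (mt (B.ex a t))ᴴ) = fun _ => (1 : Mt N) := by
    funext t; exact mt_mul_star _
  rw [h4] at h3
  have h5 := h3.unique (hasDerivAt_const (0 : ℝ) (1 : Mt N))
  rw [exp_zero_link, mt_one, conjTranspose_one, mul_one, one_mul] at h5
  exact eq_neg_of_add_eq_zero_right h5

lemma conj_mem (B : LieBasis G n) (g : G) (a : Fin n) :
    mt g * B.X a * (mt g)ᴴ ∈ Submodule.span ℝ (Set.range B.X) := by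
  refine B.full _ fun t => ⟨g * B.ex a t * g⁻¹, ?_⟩
  have hu : IsUnit (mt g) := ⟨⟨mt g, (mt g)ᴴ, mt_mul_star g, mt_star_mul g⟩, rfl⟩
  have hinv : (mt g)⁻¹ = (mt g)ᴴ := Matrix.inv_eq_right_inv (mt_mul_star g)
  have h1 := Matrix.exp_conj (mt g) (t • B.X a) hu
  rw [hinv, mul_smul_comm, smul_mul_assoc] at h1
  rw [h1, mt_mul, mt_mul, mt_inv, B.ex_eq]

lemma ip_X (B : LieBasis G n) (a b : Fin n) : ip (B.X a) (B.X b) = if a = b then 1 else 0 :=
  B.orth a b

/-- matrix coefficients of the adjoint action -/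
def am (B : LieBasis G n) (g : G) (b a : Fin n) : ℝ :=
  ip (B.X b) (mt g * B.X a * (mt g)ᴴ)

lemma mem_span_eq (B : LieBasis G n) {Y : Mt N} (hY : Y ∈ Submodule.span ℝ (Set.range B.X)) :
    Y = ∑ b, ip (B.X b) Y • B.X b := by
  obtain ⟨c, hc⟩ := (Submodule.mem_span_range_iff_exists_fun ℝ).1 hY
  rw [← hc]
  refine Finset.sum_congr rfl fun b _ => ?_
  congr 1
  rw [ip_sum_right]
  simp only [ip_smul_right, ip_X, mul_ite, mul_one, mul_zero, Finset.sum_ite_eq,
    Finset.mem_univ, if_true]

lemma conj_eq (B : LieBasis G n) (g : G) (a : Fin n) :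
    mt g * B.X a * (mt g)ᴴ = ∑ b, am B g b a • B.X b := mem_span_eq B (conj_mem B g a)

lemma am_inv (B : LieBasis G n) (g : G) (a b : Fin n) : am B g⁻¹ a b = am B g b a := by
  simp only [am]
  rw [mt_inv, ip_conj, conjTranspose_conjTranspose, ip_comm]

lemma sum_am_conj (B : LieBasis G n) (g : G) (b : Fin n) :
    ∑ a, am B g b a • (mt g * B.X a * (mt g)ᴴ) = B.X b := by
  have h1 : ∑ a, am B g b a • (mt g * B.X a * (mt g)ᴴ) =
      mt g * (∑ a, am B g⁻¹ a b • B.X a) * (mt g)ᴴ := by
    rw [Finset.mul_sum, Finset.sum_mul]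
    refine Finset.sum_congr rfl fun a _ => ?_
    rw [am_inv, mul_smul_comm, smul_mul_assoc]
  rw [h1, ← conj_eq, mt_inv, conjTranspose_conjTranspose]
  calc mt g * ((mt g)ᴴ * B.X b * mt g) * (mt g)ᴴ
      = (mt g * (mt g)ᴴ) * B.X b * (mt g * (mt g)ᴴ) := by noncomm_ring
    _ = B.X b := by rw [mt_mul_star, one_mul, mul_one]

lemma sum_am_am (B : LieBasis G n) (g : G) (b b' : Fin n) :
    ∑ a, am B g b a * am B g b' a = if b = b' then 1 else 0 := by
  have h := congrArg (ip (B.X b')) (sum_am_conj B g b)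
  rw [ip_sum_right, ip_X] at h
  simp only [ip_smul_right] at h
  rw [show (if b = b' then (1 : ℝ) else 0) = if b' = b then 1 else 0 by
    simp only [eq_comm], ← h]
  rfl

/-- an orthogonal change of a family does not change the sum of the squares -/
lemma sum_fro2_orth {m : Fin n → Fin n → ℝ}
    (hm : ∀ b b', ∑ a, m b a * m b' a = if b = b' then 1 else 0) (Y : Fin n → Mt N) :
    ∑ a, fro2 (∑ b, m b a • Y b) = ∑ b, fro2 (Y b) := by
  have h1 : ∀ a, fro2 (∑ b, m b a • Y b) = ∑ b, ∑ b', m b a * m b' a * ip (Y b) (Y b') := by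
    intro a
    rw [← ip_self, ip_sum_left]
    refine Finset.sum_congr rfl fun b _ => ?_
    rw [ip_smul_left, ip_sum_right, Finset.mul_sum]
    refine Finset.sum_congr rfl fun b' _ => ?_
    rw [ip_smul_right]
    ring
  simp only [h1]
  rw [Finset.sum_comm]
  refine Finset.sum_congr rfl fun b _ => ?_
  rw [Finset.sum_comm]
  have h2 : ∀ b', ∑ a, m b a * m b' a * ip (Y b) (Y b') =
      if b = b' then ip (Y b) (Y b') else 0 := by
    intro b'
    rw [← Finset.sum_mul, hm]
    split_ifs <;> simp
  simp only [h2]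
  rw [Finset.sum_ite_eq]
  simp [ip_self]

/-- central elements commute with the Lie algebra -/
lemma central_X (B : LieBasis G n) {z : G} (hz : z ∈ Subgroup.center G) (a : Fin n) :
    mt z * B.X a = B.X a * mt z := by
  have h1 := (hasDeriv_ex B a).const_mul (mt z)
  have h2 := (hasDeriv_ex B a).mul_const (mt z)
  have h3 : (fun t => mt z * mt (B.ex a t)) = fun t => mt (B.ex a t) * mt z := by
    funext t
    rw [← mt_mul, ← mt_mul]
    exact congrArg Q77.LU.mt (Subgroup.mem_center_iff.1 hz (B.ex a t)).symm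
  rw [h3] at h1
  exact h1.unique h2

variable [NeZero l]

/-- Smooth matrix valued functions of the links. -/
def SmM (F : (Link D l → G) → Mt N) : Prop :=
  ∃ f : (Link D l → Mt N) → Mt N, ContDiff ℝ ∞ f ∧ ∀ U, F U = f fun e => Q77.LU.mt (U e)

/-- Smooth group valued functions of the links. -/
def SmG (F : (Link D l → G) → G) : Prop := SmM fun U => Q77.LU.mt (F U)

lemma SmM.const (A : Mt N) : SmM (fun _ : Link D l → G => A) :=
  ⟨fun _ => A, contDiff_const, fun _ => rfl⟩

lemma SmM.mul {F H : (Link D l → G) → Mt N} (hF : SmM F) (hH : SmM H) :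
    SmM (fun U => F U * H U) := by
  obtain ⟨f, hf, h⟩ := hF
  obtain ⟨f', hf', h'⟩ := hH
  exact ⟨fun M => f M * f' M, hf.mul hf', fun U => by simp only [h, h']⟩

lemma SmM.sub {F H : (Link D l → G) → Mt N} (hF : SmM F) (hH : SmM H) :
    SmM (fun U => F U - H U) := by
  obtain ⟨f, hf, h⟩ := hF
  obtain ⟨f', hf', h'⟩ := hH
  exact ⟨fun M => f M - f' M, hf.sub hf', fun U => by simp only [h, h']⟩

lemma SmM.ct {F : (Link D l → G) → Mt N} (hF : SmM F) : SmM (fun U => (F U)ᴴ) := by
  obtain ⟨f, hf, h⟩ := hF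
  exact ⟨fun M => ctL N (f M), (ctL N).contDiff.comp hf, fun U => by simp only [h]; rfl⟩

lemma SmM.rtr {F : (Link D l → G) → Mt N} (hF : SmM F) :
    IsSmooth (fun U => (trace (F U)).re) := by
  obtain ⟨f, hf, h⟩ := hF
  exact ⟨fun M => Pool.Agent.Q58.LU.rtr N (f M), (Pool.Agent.Q58.LU.rtr N).contDiff.comp hf,
    fun U => by simp only [h]; rfl⟩

lemma SmM.fro2 {F : (Link D l → G) → Mt N} (hF : SmM F) :
    IsSmooth (fun U => Q77.LU.fro2 (F U)) := (hF.ct.mul hF).rtr

lemma SmG.link (e : Link D l) : SmG (fun U : Link D l → G => U e) :=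
  ⟨fun M => M e, contDiff_apply ℝ (Mt N) e, fun _ => rfl⟩

lemma SmG.const (g : G) : SmG (fun _ : Link D l → G => g) := SmM.const _

lemma SmG.mul {F H : (Link D l → G) → G} (hF : SmG F) (hH : SmG H) :
    SmG (fun U => F U * H U) := by
  unfold SmG
  simp only [mt_mul]
  exact SmM.mul hF hH

lemma SmG.inv {F : (Link D l → G) → G} (hF : SmG F) : SmG (fun U => (F U)⁻¹) := by
  unfold SmG
  simp only [mt_inv]
  exact SmM.ct hF

lemma SmG.prod {k : ℕ} {F : Fin k → (Link D l → G) → G} (hF : ∀ s, SmG (F s)) :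
    SmG (fun U => (List.ofFn fun s => F s U).prod) := by
  induction k with
  | zero =>
    simp only [List.ofFn_zero, List.prod_nil]
    exact SmG.const 1
  | succ k ih =>
    simp only [List.ofFn_succ, List.prod_cons]
    exact (hF 0).mul (ih fun s => hF s.succ)

lemma SmG.plaq (x : Fin D → ZMod l) (i j : Fin D) :
    SmG (fun U : Link D l → G => Q77.LU.plaq U x i j) :=
  (((SmG.link _).mul (SmG.link _)).mul (SmG.link _).inv).mul (SmG.link _).inv

lemma SmG.wind (x : Fin D → ZMod l) (i : Fin D) :
    SmG (fun U : Link D l → G => Q77.LU.wind U x i) :=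
  SmG.prod fun _ => SmG.link _

lemma isSmooth_const (c : ℝ) : IsSmooth (fun _ : Link D l → G => c) :=
  ⟨fun _ => c, contDiff_const, fun _ => rfl⟩

lemma isSmooth_add {F H : (Link D l → G) → ℝ} (hF : IsSmooth F) (hH : IsSmooth H) :
    IsSmooth (fun U => F U + H U) := by
  obtain ⟨f, hf, h⟩ := hF
  obtain ⟨f', hf', h'⟩ := hH
  exact ⟨fun M => f M + f' M, hf.add hf', fun U => by simp only [h, h']⟩

lemma isSmooth_sum {κ : Type*} (s : Finset κ) {F : κ → (Link D l → G) → ℝ}
    (hF : ∀ k ∈ s, IsSmooth (F k)) : IsSmooth (fun U => ∑ k ∈ s, F k U) := by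
  classical
  induction s using Finset.induction_on with
  | empty =>
    simp only [Finset.sum_empty]
    exact isSmooth_const 0
  | insert a s ha ih =>
    simp only [Finset.sum_insert ha]
    exact isSmooth_add (hF a (Finset.mem_insert_self _ _))
      (ih fun k hk => hF k (Finset.mem_insert_of_mem hk))

lemma continuous_mt : Continuous (mt : G → Mt N) :=
  continuous_subtype_val.comp continuous_subtype_val

lemma continuous_mat : Continuous (fun (U : Link D l → G) (e : Link D l) => mt (U e)) :=
  continuous_pi fun e => continuous_mt.comp (continuous_apply e)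

lemma IsSmooth.continuous {F : (Link D l → G) → ℝ} (hF : IsSmooth F) : Continuous F := by
  obtain ⟨f, hf, h⟩ := hF
  have : F = fun U => f fun e => mt (U e) := funext h
  rw [this]
  exact hf.continuous.comp continuous_mat

lemma SmM.continuous {F : (Link D l → G) → Mt N} (hF : SmM F) : Continuous F := by
  obtain ⟨f, hf, h⟩ := hF
  have : F = fun U => f fun e => mt (U e) := funext h
  rw [this]
  exact hf.continuous.comp continuous_mat

/-- the motion of one link -/
lemma hasDeriv_mat (B : LieBasis G n) (e : Link D l) (a : Fin n) (U : Link D l → G) :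
    HasDerivAt (fun t (e' : Link D l) => mt (Function.update U e (B.ex a t * U e) e'))
      (Pi.single e (B.X a * mt (U e))) 0 := by
  refine hasDerivAt_pi.2 fun e' => ?_
  by_cases h : e' = e
  · subst h
    have h1 : (fun t => mt (Function.update U e' (B.ex a t * U e') e')) =
        fun t => mt (B.ex a t) * mt (U e') := by
      funext t
      rw [Function.update_self, mt_mul]
    rw [h1, Pi.single_eq_same]
    exact (hasDeriv_ex B a).mul_const _
  · have h1 : (fun t => mt (Function.update U e (B.ex a t * U e) e')) = fun _ => mt (U e') := by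
      funext t
      rw [Function.update_of_ne h]
    rw [h1, Pi.single_eq_of_ne h]
    exact hasDerivAt_const _ _

lemma update_zero (B : LieBasis G n) (e : Link D l) (a : Fin n) (U : Link D l → G) :
    Function.update U e (B.ex a 0 * U e) = U := by
  rw [exp_zero_link, one_mul, Function.update_eq_self]

/-- derivative of a smooth function when one link moves -/
lemma hasDeriv_smooth {E : Type*} [NormedAddCommGroup E] [NormedSpace ℝ E]
    {F : (Link D l → G) → E} {f : (Link D l → Mt N) → E} (hf : ContDiff ℝ ∞ f)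
    (h : ∀ U, F U = f fun e => mt (U e)) (B : LieBasis G n) (e : Link D l) (a : Fin n)
    (U : Link D l → G) :
    HasDerivAt (fun t => F (Function.update U e (B.ex a t * U e)))
      (fderiv ℝ f (fun e => mt (U e)) (Pi.single e (B.X a * mt (U e)))) 0 := by
  have h1 : (fun t => F (Function.update U e (B.ex a t * U e))) =
      fun t => f fun e' => mt (Function.update U e (B.ex a t * U e) e') := by
    funext t; exact h _
  rw [h1]
  have h2 : HasFDerivAt f (fderiv ℝ f (fun e => mt (U e)))
      (fun e' => mt (Function.update U e (B.ex a 0 * U e) e')) := by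
    rw [update_zero]
    exact (hf.differentiable (by simp)).differentiableAt.hasFDerivAt
  exact h2.comp_hasDerivAt (0 : ℝ) (hasDeriv_mat B e a U)

/-- the derivative is continuous in the configuration -/
lemma continuous_deriv_smooth {E : Type*} [NormedAddCommGroup E] [NormedSpace ℝ E]
    {F : (Link D l → G) → E} {f : (Link D l → Mt N) → E} (hf : ContDiff ℝ ∞ f)
    (h : ∀ U, F U = f fun e => mt (U e)) (B : LieBasis G n) (e : Link D l) (a : Fin n) :
    Continuous (fun U : Link D l → G =>
      deriv (fun t => F (Function.update U e (B.ex a t * U e))) 0) := by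
  have h1 : (fun U : Link D l → G =>
      deriv (fun t => F (Function.update U e (B.ex a t * U e))) 0) =
      fun U : Link D l → G =>
        fderiv ℝ f (fun e => Q77.LU.mt (U e)) (Pi.single e (B.X a * Q77.LU.mt (U e))) := by
    funext U
    exact (hasDeriv_smooth hf h B e a U).deriv
  rw [h1]
  apply Continuous.clm_apply
  · exact (hf.continuous_fderiv (by simp)).comp continuous_mat
  · apply continuous_pi
    intro e'
    by_cases h2 : e' = e
    · subst h2
      simp only [Pi.single_eq_same]
      exact continuous_const.mul (continuous_mt.comp (continuous_apply e'))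
    · simp only [Pi.single_eq_of_ne h2]
      exact continuous_const

end

end

end Pool.Agent.Q58.LU
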