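import Pool.Agent.Q77.LU.StmH

/-!
# Project LU: basic facts on the gauge group
-/

set_option autoImplicit false

namespace Pool.Agent.Q58.LU

open MeasureTheory Matrix Set Filter Topology Pool.Agent.Q77.LU
open scoped ContDiff Matrix.Norms.Frobenius

noncomputable section

variable {N : ℕ}

instance : SecondCountableTopology (Mt N) :=
  inferInstanceAs (SecondCountableTopology (Fin N → Fin N → ℂ))

lemma compact_UU : IsCompact (UU N : Set (Mt N)) := by
  have h1 : IsCompact (Set.pi Set.univ fun _ : Fin N => Set.pi Set.univ fun _ : Fin N =>
      Metric.closedBall (0 : ℂ) 1) :=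
    isCompact_univ_pi fun _ => isCompact_univ_pi fun _ => isCompact_closedBall _ _
  refine IsCompact.of_isClosed_subset h1 ?_ ?_
  · have h2 : (UU N : Set (Mt N)) = {A | A * star A = 1} := by
      ext A
      exact Matrix.mem_unitaryGroup_iff
    rw [h2]
    exact isClosed_eq (continuous_id.mul continuous_star) continuous_const
  · intro A hA i _ j _
    rw [mem_closedBall_zero_iff]
    exact entry_norm_bound_of_unitary hA i j

instance : CompactSpace (UU N) := isCompact_iff_compactSpace.1 compact_UU

instance : SecondCountableTopology (UU N) :=
  TopologicalSpace.Subtype.secondCountableTopology _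

instance (G : Subgroup (UU N)) : SecondCountableTopology G :=
  TopologicalSpace.Subtype.secondCountableTopology _

lemma compactG {G : Subgroup (UU N)} (hG : IsClosed (G : Set (UU N))) : CompactSpace G :=
  isCompact_iff_compactSpace.1 hG.isCompact

/-- A Haar probability measure of a compact group is right invariant. -/
lemma right_inv {H : Type*} [Group H] [TopologicalSpace H] [IsTopologicalGroup H]
    [CompactSpace H] [MeasurableSpace H] [BorelSpace H] (μ : Measure H)
    [IsProbabilityMeasure μ] [μ.IsHaarMeasure] : μ.IsMulRightInvariant := by
  refine ⟨fun g => ?_⟩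
  have h1 : IsProbabilityMeasure (Measure.map (fun x => x * g) μ) :=
    Measure.isProbabilityMeasure_map (measurable_mul_const g).aemeasurable
  exact Measure.isHaarMeasure_eq_of_isProbabilityMeasure _ _

end

end Pool.Agent.Q58.LU
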