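import Pool.Agent.Q77.LU.StmH

/-!
# Project LU, job CARD: the number of links outside of the tree
-/

set_option autoImplicit false

namespace Pool.Agent.Q58.LU

open Pool.Agent.Q77.LU
open scoped Classical in
/-- the number of tree links in one direction -/
lemma card_dir (D l : ℕ) [NeZero l] (i : Fin D) :
    (Finset.univ.filter fun y : Fin D → ZMod l => inT (y, i)).card = l ^ (i : ℕ) * (l - 1) := by
  have h1 : (Finset.univ.filter fun y : Fin D → ZMod l => inT (y, i)) =
      Fintype.piFinset (fun j => if j < i then (Finset.univ : Finset (ZMod l)) else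
        if j = i then Finset.univ.erase (-1) else {0}) := by
    ext y
    simp only [Finset.mem_filter, Finset.mem_univ, true_and, Fintype.mem_piFinset, inT]
    constructor
    · rintro ⟨h0, h1⟩ j
      rcases lt_trichotomy j i with h | h | h
      · simp [h]
      · subst h
        simp [h1]
      · rw [if_neg (not_lt.2 h.le), if_neg h.ne', h0 j h]
        simp
    · intro h
      refine ⟨fun j hj => ?_, ?_⟩
      · have := h j
        rw [if_neg (not_lt.2 hj.le), if_neg hj.ne'] at this
        simpa using this
      · have := h i
        simpa using this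
  rw [h1, Fintype.card_piFinset]
  have h2 : ∀ j : Fin D, (if j < i then (Finset.univ : Finset (ZMod l)) else
        if j = i then Finset.univ.erase (-1) else {0}).card =
      (if j < i then l else 1) * (if j = i then l - 1 else 1) := by
    intro j
    rcases lt_trichotomy j i with h | h | h
    · simp [h, h.ne, ZMod.card]
    · subst h
      simp [ZMod.card]
    · simp [not_lt.2 h.le, h.ne']
  rw [Finset.prod_congr rfl fun j _ => h2 j, Finset.prod_mul_distrib]
  congr 1
  · rw [Finset.prod_ite, Finset.prod_const, Finset.prod_const_one, mul_one]
    congr 1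
    have : (Finset.univ.filter fun j : Fin D => j < i) = Finset.Iio i := by
      ext j
      simp
    rw [this, Fin.card_Iio]
  · rw [Finset.prod_ite_eq' Finset.univ i]
    simp

open scoped Classical in
lemma card_tree (D l : ℕ) [NeZero l] :
    (Finset.univ.filter fun e : Link D l => inT e).card + 1 = l ^ D := by
  have h1 : (Finset.univ.filter fun e : Link D l => inT e).card =
      ∑ i : Fin D, l ^ (i : ℕ) * (l - 1) := by
    rw [Finset.card_filter, Fintype.sum_prod_type_right]
    apply Finset.sum_congr rfl
    intro i _
    rw [← Finset.card_filter, card_dir]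
  rw [h1, Fin.sum_univ_eq_sum_range (fun i => l ^ i * (l - 1)) D]
  have hl : 1 ≤ l := Nat.one_le_iff_ne_zero.2 (NeZero.ne l)
  clear h1
  induction D with
  | zero => simp
  | succ D ih =>
    rw [Finset.sum_range_succ]
    have e1 : l ^ (D + 1) = l ^ D * (l - 1) + l ^ D := by
      obtain ⟨m, rfl⟩ := Nat.exists_eq_add_of_le hl
      simp only [Nat.add_sub_cancel_left]
      ring
    rw [e1, ← ih]
    ring

theorem t_CARD : S_CARD := by
  intro D l _
  classical
  have h1 : Fintype.card (NT D l) = (Finset.univ.filter fun e : Link D l => ¬ inT e).card := by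
    rw [← Fintype.card_subtype]
  have h2 := Finset.card_filter_add_card_filter_not (s := (Finset.univ : Finset (Link D l)))
    (fun e => inT e)
  rw [Finset.card_univ, Fintype.card_prod, Fintype.card_fun, ZMod.card, Fintype.card_fin] at h2
  have h3 := card_tree D l
  rw [h1]
  have h4 : l ^ D * D = D * l ^ D := mul_comm _ _
  omega

end Pool.Agent.Q58.LU
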