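import Pool.Agent.Q58.LU.Adj

/-!
# Project LU, job HC: continuity and invariance
-/

set_option autoImplicit false
set_option linter.unusedSectionVars false

namespace Pool.Agent.Q58.LU

open MeasureTheory Matrix Set Filter Topology Pool.Agent.Q77.LU
open scoped ContDiff Matrix.Norms.Frobenius

noncomputable section

section

variable {N n D l : ℕ} {G : Subgroup (UU N)} [NeZero l]

/-! ### smoothness -/

lemma smooth_magnetic : IsSmooth (fun U : Link D l → G => magnetic U) := by
  simp only [magnetic]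
  refine isSmooth_sum _ fun x _ => isSmooth_sum _ fun i _ => isSmooth_sum _ fun j _ => ?_
  by_cases h : i < j
  · simp only [if_pos h]
    exact ((SmM.const 1).sub (SmG.plaq x i j)).rtr
  · simp only [if_neg h]
    exact isSmooth_const 0

lemma smooth_tau (B : LieBasis G n) : IsSmooth (tau B : (Link D l → G) → ℝ) := by
  have : (tau B : (Link D l → G) → ℝ) = fun U => magnetic U +
      ∑ x : Fin D → ZMod l, ∑ i : Fin D, ∑ a : Fin n,
        fro2 (Q77.LU.mt (wind U x i) * B.X a * (Q77.LU.mt (wind U x i))ᴴ - B.X a) := rfl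
  rw [this]
  refine isSmooth_add smooth_magnetic (isSmooth_sum _ fun x _ => isSmooth_sum _ fun i _ =>
    isSmooth_sum _ fun a _ => ?_)
  have h1 : SmM (fun U : Link D l → G => Q77.LU.mt (wind U x i)) := SmG.wind x i
  exact SmM.fro2 (SmM.sub (SmM.mul (SmM.mul h1 (SmM.const (B.X a))) (SmM.ct h1))
    (SmM.const (B.X a)))

lemma continuous_dpl (B : LieBasis G n) (x : Fin D → ZMod l) (i j : Fin D)
    (p : Link D l × Fin n) : Continuous (fun U : Link D l → G => dpl B U x i j p) := by
  obtain ⟨f, hf, h⟩ := SmG.plaq (G := G) x i j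
  exact continuous_deriv_smooth (F := fun U => Q77.LU.mt (plaq U x i j)) hf h B p.1 p.2

lemma continuous_hess (B : LieBasis G n) : Continuous (fun U : Link D l → G => hess B U) := by
  apply continuous_matrix
  intro p q
  simp only [hess]
  refine continuous_finsetSum _ fun x _ => continuous_finsetSum _ fun i _ =>
    continuous_finsetSum _ fun j _ => ?_
  by_cases h : i < j
  · simp only [if_pos h]
    have h1 : Continuous fun U : Link D l → G => (dpl B U x i j p)ᴴ * dpl B U x i j q :=
      ((ctL N).continuous.comp (continuous_dpl B x i j p)).mul (continuous_dpl B x i j q)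
    exact (rtr N).continuous.comp h1
  · simp only [if_neg h]
    exact continuous_const

lemma hess_symm (B : LieBasis G n) (U : Link D l → G) (p q : Link D l × Fin n) :
    hess B U p q = hess B U q p := by
  simp only [hess]
  refine Finset.sum_congr rfl fun x _ => Finset.sum_congr rfl fun i _ =>
    Finset.sum_congr rfl fun j _ => ?_
  split_ifs
  · exact ip_comm _ _
  · rfl

lemma hess_form (B : LieBasis G n) (U : Link D l → G) (v : Link D l × Fin n → ℝ) :
    ∑ p, v p * ∑ q, hess B U p q * v q =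
      ∑ x : Fin D → ZMod l, ∑ i : Fin D, ∑ j : Fin D,
        if i < j then fro2 (∑ p, v p • dpl B U x i j p) else 0 := by
  have h1 : ∀ p q, v p * (hess B U p q * v q) = ∑ x : Fin D → ZMod l, ∑ i : Fin D, ∑ j : Fin D,
      if i < j then v p * (ip (dpl B U x i j p) (dpl B U x i j q) * v q) else 0 := by
    intro p q
    simp only [hess, Finset.sum_mul, Finset.mul_sum]
    refine Finset.sum_congr rfl fun x _ => Finset.sum_congr rfl fun i _ =>
      Finset.sum_congr rfl fun j _ => ?_
    split_ifs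
    · rfl
    · simp
  simp only [Finset.mul_sum, h1]
  have h2 : ∀ p, ∑ q, ∑ x : Fin D → ZMod l, ∑ i : Fin D, ∑ j : Fin D,
      (if i < j then v p * (ip (dpl B U x i j p) (dpl B U x i j q) * v q) else 0) =
      ∑ x : Fin D → ZMod l, ∑ i : Fin D, ∑ j : Fin D, ∑ q,
      (if i < j then v p * (ip (dpl B U x i j p) (dpl B U x i j q) * v q) else 0) := by
    intro p
    rw [Finset.sum_comm]
    refine Finset.sum_congr rfl fun x _ => ?_
    rw [Finset.sum_comm]
    refine Finset.sum_congr rfl fun i _ => ?_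
    rw [Finset.sum_comm]
  simp only [h2]
  rw [Finset.sum_comm]
  refine Finset.sum_congr rfl fun x _ => ?_
  rw [Finset.sum_comm]
  refine Finset.sum_congr rfl fun i _ => ?_
  rw [Finset.sum_comm]
  refine Finset.sum_congr rfl fun j _ => ?_
  by_cases h : i < j
  · simp only [if_pos h]
    rw [← ip_self, ip_sum_left]
    refine Finset.sum_congr rfl fun p _ => ?_
    rw [ip_smul_left, ip_sum_right, Finset.mul_sum]
    refine Finset.sum_congr rfl fun q _ => ?_
    rw [ip_smul_right]
    ring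
  · simp only [if_neg h, Finset.sum_const_zero]

lemma hess_psd (B : LieBasis G n) (U : Link D l → G) : (hess B U).PosSemidef := by
  apply Matrix.PosSemidef.of_dotProduct_mulVec_nonneg
  · ext p q
    rw [conjTranspose_apply, star_trivial]
    exact hess_symm B U q p
  · intro v
    have h1 : star v ⬝ᵥ (hess B U).mulVec v = ∑ p, v p * ∑ q, hess B U p q * v q := by
      simp only [dotProduct, mulVec, star_trivial]
    rw [h1, hess_form]
    refine Finset.sum_nonneg fun x _ => Finset.sum_nonneg fun i _ => Finset.sum_nonneg fun j _ => ?_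
    split_ifs
    · exact fro2_nonneg _
    · exact le_refl _

/-! ### gauge invariance -/

lemma plaq_gauge (γ : (Fin D → ZMod l) → G) (U : Link D l → G) (x : Fin D → ZMod l)
    (i j : Fin D) : plaq (Q77.LU.gauge γ U) x i j = γ x * plaq U x i j * (γ x)⁻¹ := by
  simp only [plaq, Q77.LU.gauge]
  have e : x + unitv j + unitv i = x + unitv i + unitv j := by abel
  rw [e]
  group

lemma wind_gauge (γ : (Fin D → ZMod l) → G) (U : Link D l → G) (x : Fin D → ZMod l)
    (i : Fin D) : wind (Q77.LU.gauge γ U) x i = γ x * wind U x i * (γ x)⁻¹ := by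
  simp only [wind]
  rw [tele l _ (fun s : Fin l => U (x + (s : ℕ) • unitv i, i))
    (fun s => γ (x + (s : ℕ) • unitv i)) (fun s => by
      simp only [Q77.LU.gauge]
      have e : x + (s : ℕ) • unitv i + unitv i = x + ((s : ℕ) + 1) • (unitv i : Fin D → ZMod l) := by
        rw [add_smul, one_smul, add_assoc]
      rw [e])]
  have e1 : x + (0 : ℕ) • (unitv i : Fin D → ZMod l) = x := by simp
  have e2 : x + l • (unitv i : Fin D → ZMod l) = x := by
    funext j
    simp [nsmul_eq_mul]
  rw [e1, e2]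

lemma trace_conj (g P : G) : trace (1 - Q77.LU.mt (g * P * g⁻¹)) = trace (1 - Q77.LU.mt P) := by
  rw [trace_sub, trace_sub, mt_mul, mt_mul, mt_inv, trace_mul_comm, ← Matrix.mul_assoc,
    mt_star_mul, Matrix.one_mul]

lemma magnetic_gauge (γ : (Fin D → ZMod l) → G) (U : Link D l → G) :
    magnetic (Q77.LU.gauge γ U) = magnetic U := by
  simp only [magnetic, plaq_gauge, trace_conj]

lemma ad_gauge (B : LieBasis G n) (g w : G) :
    ∑ a, fro2 (Q77.LU.mt (g * w * g⁻¹) * B.X a * (Q77.LU.mt (g * w * g⁻¹))ᴴ - B.X a) =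
      ∑ a, fro2 (Q77.LU.mt w * B.X a * (Q77.LU.mt w)ᴴ - B.X a) := by
  have h1 : ∀ a, Q77.LU.mt (g * w * g⁻¹) * B.X a * (Q77.LU.mt (g * w * g⁻¹))ᴴ - B.X a =
      Q77.LU.mt g * (∑ b, am B g⁻¹ b a •
        (Q77.LU.mt w * B.X b * (Q77.LU.mt w)ᴴ - B.X b)) * (Q77.LU.mt g)ᴴ := by
    intro a
    have e1 : ∑ b, am B g⁻¹ b a • (Q77.LU.mt w * B.X b * (Q77.LU.mt w)ᴴ - B.X b) =
        Q77.LU.mt w * (∑ b, am B g⁻¹ b a • B.X b) * (Q77.LU.mt w)ᴴ -
          ∑ b, am B g⁻¹ b a • B.X b := by
      simp only [smul_sub, Finset.sum_sub_distrib]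
      congr 1
      rw [Finset.mul_sum, Finset.sum_mul]
      refine Finset.sum_congr rfl fun b _ => ?_
      rw [mul_smul_comm, smul_mul_assoc]
    rw [e1, ← conj_eq, mt_inv, conjTranspose_conjTranspose, mt_mul, mt_mul, mt_inv]
    simp only [conjTranspose_mul, conjTranspose_conjTranspose]
    have e2 : Q77.LU.mt g * (Q77.LU.mt w * ((Q77.LU.mt g)ᴴ * B.X a * Q77.LU.mt g) *
        (Q77.LU.mt w)ᴴ - (Q77.LU.mt g)ᴴ * B.X a * Q77.LU.mt g) * (Q77.LU.mt g)ᴴ =
        Q77.LU.mt g * Q77.LU.mt w * (Q77.LU.mt g)ᴴ * B.X a * (Q77.LU.mt g *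
          ((Q77.LU.mt w)ᴴ * (Q77.LU.mt g)ᴴ)) -
        (Q77.LU.mt g * (Q77.LU.mt g)ᴴ) * B.X a * (Q77.LU.mt g * (Q77.LU.mt g)ᴴ) := by
      noncomm_ring
    rw [e2, mt_mul_star, one_mul, mul_one]
  simp only [h1, fro2_conj (mt_star_mul g)]
  exact sum_fro2_orth (sum_am_am B g⁻¹) _

lemma tau_gauge (B : LieBasis G n) (γ : (Fin D → ZMod l) → G) (U : Link D l → G) :
    tau B (Q77.LU.gauge γ U) = tau B U := by
  simp only [tau, magnetic_gauge, wind_gauge, ad_gauge]

/-! ### centre invariance -/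

/-- the factor of a link in a centre transformation -/
lemma centre_eq (z : Fin D → G) (U : Link D l → G) (e : Link D l) :
    centre z U e = (if e.1 e.2 = -1 then z e.2 else 1) * U e := by
  simp only [centre]
  split_ifs <;> simp

lemma plaq_centre {z : Fin D → G} (hz : ∀ i, z i ∈ Subgroup.center G) (U : Link D l → G)
    (x : Fin D → ZMod l) {i j : Fin D} (hij : i ≠ j) :
    plaq (centre z U) x i j = plaq U x i j := by
  simp only [plaq, centre_eq]
  have e1 : (x + (unitv i : Fin D → ZMod l)) j = x j := by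
    simp [unitv, Pi.single_eq_of_ne hij.symm]
  have e2 : (x + (unitv j : Fin D → ZMod l)) i = x i := by
    simp [unitv, Pi.single_eq_of_ne hij]
  rw [e1, e2]
  set c : G := if x i = -1 then z i else 1 with hc
  set d : G := if x j = -1 then z j else 1 with hd
  have hcc : ∀ g, g * c = c * g := by
    intro g
    rw [hc]
    split_ifs
    · exact Subgroup.mem_center_iff.1 (hz i) g
    · simp
  have hdc : ∀ g, g * d = d * g := by
    intro g
    rw [hd]
    split_ifs
    · exact Subgroup.mem_center_iff.1 (hz j) g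
    · simp
  have h1 : c * U (x, i) * (d * U (x + unitv i, j)) * (c * U (x + unitv j, i))⁻¹ *
      (d * U (x, j))⁻¹ = c * (U (x, i) * d) * U (x + unitv i, j) * (U (x + unitv j, i))⁻¹ * c⁻¹ *
      (U (x, j))⁻¹ * d⁻¹ := by group
  rw [h1, hdc]
  have h2 : c * (d * U (x, i)) * U (x + unitv i, j) * (U (x + unitv j, i))⁻¹ * c⁻¹ *
      (U (x, j))⁻¹ * d⁻¹ = c * (d * (U (x, i) * U (x + unitv i, j) * (U (x + unitv j, i))⁻¹)) *
      c⁻¹ * (U (x, j))⁻¹ * d⁻¹ := by group
  rw [h2, ← hcc]
  have h3 : d * (U (x, i) * U (x + unitv i, j) * (U (x + unitv j, i))⁻¹) * c * c⁻¹ *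
      (U (x, j))⁻¹ * d⁻¹ = d * (U (x, i) * U (x + unitv i, j) * (U (x + unitv j, i))⁻¹ *
      (U (x, j))⁻¹) * d⁻¹ := by group
  rw [h3, ← hdc]
  group

lemma magnetic_centre {z : Fin D → G} (hz : ∀ i, z i ∈ Subgroup.center G)
    (U : Link D l → G) : magnetic (centre z U) = magnetic U := by
  simp only [magnetic]
  refine Finset.sum_congr rfl fun x _ => Finset.sum_congr rfl fun i _ =>
    Finset.sum_congr rfl fun j _ => ?_
  split_ifs with h
  · rw [plaq_centre hz U x h.ne]
  · rfl

lemma wind_centre {z : Fin D → G} (hz : ∀ i, z i ∈ Subgroup.center G) (U : Link D l → G)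
    (x : Fin D → ZMod l) (i : Fin D) : wind (centre z U) x i = z i * wind U x i := by
  have hc := Subgroup.mem_center_iff.1 (hz i)
  simp only [wind]
  set s0 : ℕ := (-1 - x i : ZMod l).val with hs0
  have hs0l : s0 < l := ZMod.val_lt _
  have hval : ((s0 : ℕ) : ZMod l) = -1 - x i := by
    rw [hs0, ZMod.natCast_val, ZMod.cast_id', id]
  have hcoord : ∀ s : ℕ, (x + s • (unitv i : Fin D → ZMod l)) i = x i + s := by
    intro s
    simp [unitv, nsmul_eq_mul]
  rw [tele l _ (fun s : Fin l => U (x + (s : ℕ) • unitv i, i))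
    (fun s => if s ≤ s0 then 1 else (z i)⁻¹) (fun s => by
      rw [centre_eq]
      simp only
      rw [hcoord]
      rcases lt_trichotomy (s : ℕ) s0 with hs | hs | hs
      · have h1 : x i + ((s : ℕ) : ZMod l) ≠ -1 := by
          intro h1
          have h2 : ((s : ℕ) : ZMod l) = ((s0 : ℕ) : ZMod l) := by
            rw [hval]
            linear_combination h1
          have h3 := congrArg ZMod.val h2
          rw [ZMod.val_natCast, ZMod.val_natCast, Nat.mod_eq_of_lt s.2,
            Nat.mod_eq_of_lt hs0l] at h3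
          omega
        rw [if_neg h1, if_pos hs.le, if_pos (by omega : (s : ℕ) + 1 ≤ s0)]
        group
      · have h1 : x i + ((s : ℕ) : ZMod l) = -1 := by
          rw [hs, hval]
          ring
        rw [if_pos h1, if_pos hs.le, if_neg (by omega : ¬ (s : ℕ) + 1 ≤ s0), ← hc]
        group
      · have h1 : x i + ((s : ℕ) : ZMod l) ≠ -1 := by
          intro h1
          have h2 : ((s : ℕ) : ZMod l) = ((s0 : ℕ) : ZMod l) := by
            rw [hval]
            linear_combination h1
          have h3 := congrArg ZMod.val h2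
          rw [ZMod.val_natCast, ZMod.val_natCast, Nat.mod_eq_of_lt s.2,
            Nat.mod_eq_of_lt hs0l] at h3
          omega
        rw [if_neg h1, if_neg (by omega : ¬ (s : ℕ) ≤ s0),
          if_neg (by omega : ¬ (s : ℕ) + 1 ≤ s0), inv_inv, mul_assoc, hc]
        group)]
  rw [if_pos (Nat.zero_le _), if_neg (by omega : ¬ l ≤ s0), inv_inv, one_mul]
  exact hc _

lemma ad_central (B : LieBasis G n) {z : G} (hz : z ∈ Subgroup.center G) (w : G) (a : Fin n) :
    Q77.LU.mt (z * w) * B.X a * (Q77.LU.mt (z * w))ᴴ =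
      Q77.LU.mt w * B.X a * (Q77.LU.mt w)ᴴ := by
  have h0 : z * w = w * z := (Subgroup.mem_center_iff.1 hz w).symm
  rw [h0, mt_mul, conjTranspose_mul]
  have h3 : Q77.LU.mt w * Q77.LU.mt z * B.X a * ((Q77.LU.mt z)ᴴ * (Q77.LU.mt w)ᴴ) =
      Q77.LU.mt w * (Q77.LU.mt z * B.X a) * (Q77.LU.mt z)ᴴ * (Q77.LU.mt w)ᴴ := by
    noncomm_ring
  rw [h3, central_X B hz]
  have h4 : Q77.LU.mt w * (B.X a * Q77.LU.mt z) * (Q77.LU.mt z)ᴴ * (Q77.LU.mt w)ᴴ =
      Q77.LU.mt w * B.X a * (Q77.LU.mt z * (Q77.LU.mt z)ᴴ) * (Q77.LU.mt w)ᴴ := by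
    noncomm_ring
  rw [h4, mt_mul_star, mul_one]

lemma tau_centre (B : LieBasis G n) {z : Fin D → G} (hz : ∀ i, z i ∈ Subgroup.center G)
    (U : Link D l → G) : tau B (centre z U) = tau B U := by
  simp only [tau, magnetic_centre hz, wind_centre hz, ad_central B (hz _)]

lemma tau_nonneg (B : LieBasis G n) (U : Link D l → G) : 0 ≤ tau B U := by
  have h2 : 0 ≤ ∑ x : Fin D → ZMod l, ∑ i : Fin D, ∑ a : Fin n,
      fro2 (Q77.LU.mt (wind U x i) * B.X a * (Q77.LU.mt (wind U x i))ᴴ - B.X a) :=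
    Finset.sum_nonneg fun x _ => Finset.sum_nonneg fun i _ => Finset.sum_nonneg fun a _ =>
      fro2_nonneg _
  have h1 := magnetic_nonneg U
  simp only [tau]
  linarith

end

theorem t_HC : S_HC := by
  intro N n D l _ G hG B
  exact ⟨continuous_hess B, hess_psd B, smooth_magnetic, smooth_tau B,
    fun γ U => tau_gauge B γ U, fun z hz U => tau_centre B hz U, magnetic_nonneg,
    tau_nonneg B, fun U hU => tau_parts hU⟩

end

end Pool.Agent.Q58.LU
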