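import Pool.Agent.Q77.LU.StmH

/-!
# Project LU, job TGA: the tree gauge
-/

set_option autoImplicit false

namespace Pool.Agent.Q58.LU

open MeasureTheory Matrix Set Filter Topology Pool.Agent.Q77.LU
open scoped ContDiff Matrix.Norms.Frobenius

noncomputable section

section abs

variable {M : Type*} [Group M]

/-- telescoping products -/
lemma tele : ∀ (n : ℕ) (f g : Fin n → M) (h : ℕ → M),
    (∀ s : Fin n, f s = h s * g s * (h (s + 1))⁻¹) →
    (List.ofFn f).prod = h 0 * (List.ofFn g).prod * (h n)⁻¹
  | 0, f, g, h, _ => by simp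
  | n + 1, f, g, h, hs => by
    rw [List.ofFn_succ, List.ofFn_succ, List.prod_cons, List.prod_cons]
    have ih := tele n (fun i => f i.succ) (fun i => g i.succ) (fun k => h (k + 1)) (fun s => by
      have := hs s.succ
      simpa using this)
    rw [ih, hs 0]
    simp only [Fin.val_zero, zero_add]
    group

lemma prod_ofFn_one (n : ℕ) (f : Fin n → M) (h : ∀ i, f i = 1) : (List.ofFn f).prod = 1 := by
  have h1 := tele n f (fun _ => 1) (fun _ => 1) (fun s => by simp [h s])
  rw [h1]
  have : (List.ofFn fun _ : Fin n => (1 : M)) = List.replicate n 1 := by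
    rw [List.ofFn_const]
  rw [this]
  simp

/-- changing one factor by a right multiplication -/
lemma prod_ofFn_change (n : ℕ) (a b : Fin n → M) (i : Fin n) (c : M)
    (h1 : ∀ j, j < i → b j = a j) (h2 : b i = a i * c) (h3 : ∀ j, i < j → a j = 1 ∧ b j = 1) :
    (List.ofFn b).prod = (List.ofFn a).prod * c := by
  have h := tele n b a (fun k => if k ≤ (i : ℕ) then 1 else c⁻¹) (fun s => by
    rcases lt_trichotomy s i with hs | hs | hs
    · have e1 : (s : ℕ) ≤ i := (Fin.lt_def.1 hs).le
      have e2 : (s : ℕ) + 1 ≤ i := Fin.lt_def.1 hs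
      simp only [if_pos e1, if_pos e2, one_mul, inv_one, mul_one]
      exact h1 s hs
    · subst hs
      simp [h2]
    · have e1 : ¬ (s : ℕ) ≤ i := not_le.2 (Fin.lt_def.1 hs)
      have e2 : ¬ (s : ℕ) + 1 ≤ i := by omega
      simp only [if_neg e1, if_neg e2, (h3 s hs).1, (h3 s hs).2]
      group)
  rw [h]
  have e3 : ¬ (n ≤ (i : ℕ)) := not_le.2 i.2
  simp [e3]

end abs

section tree

variable {N D l : ℕ} {G : Subgroup (UU N)}

/-- the points of the comb path -/
def qp (x : Fin D → ZMod l) (i : Fin D) (s : ZMod l) : Fin D → ZMod l :=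
  fun j => if j < i then x j else if j = i then s else 0

/-- the corners of the comb path -/
def pp (x : Fin D → ZMod l) (k : ℕ) : Fin D → ZMod l :=
  fun j => if (j : ℕ) < k then x j else 0

/-- the product along a segment of the comb path -/
def seg (U : Link D l → G) (x : Fin D → ZMod l) (i : Fin D) (n : ℕ) : G :=
  (List.ofFn fun s : Fin n => U (qp x i ((s : ℕ) : ZMod l), i)).prod

lemma pth_eq (U : Link D l → G) (x : Fin D → ZMod l) :
    pth U x = (List.ofFn fun i : Fin D => seg U x i (x i).val).prod := rfl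

lemma qp_zero (x : Fin D → ZMod l) (i : Fin D) : qp x i 0 = pp x i := by
  funext j
  simp only [qp, pp]
  by_cases h : j < i
  · rw [if_pos h, if_pos (Fin.lt_def.1 h)]
  · rw [if_neg h, if_neg (fun h' => h (Fin.lt_def.2 h'))]
    simp

lemma qp_val [NeZero l] (x : Fin D → ZMod l) (i : Fin D) :
    qp x i (((x i).val : ℕ) : ZMod l) = pp x (i + 1) := by
  funext j
  simp only [qp, pp, ZMod.natCast_val, ZMod.cast_id', id]
  rcases lt_trichotomy j i with h | h | h
  · rw [if_pos h, if_pos (by have := Fin.lt_def.1 h; omega)]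
  · subst h
    simp
  · rw [if_neg (not_lt.2 h.le), if_neg h.ne', if_neg (by have := Fin.lt_def.1 h; omega)]

lemma pp_zero (x : Fin D → ZMod l) : pp x 0 = 0 := by
  funext j
  simp [pp]

lemma pp_top (x : Fin D → ZMod l) : pp x D = x := by
  funext j
  simp [pp]

lemma qp_add (x : Fin D → ZMod l) (i : Fin D) (s : ℕ) :
    qp x i ((s : ℕ) : ZMod l) + unitv i = qp x i (((s + 1 : ℕ) : ℕ) : ZMod l) := by
  funext j
  simp only [qp, unitv, Pi.add_apply]
  rcases lt_trichotomy j i with h | h | h
  · rw [if_pos h, if_pos h, Pi.single_eq_of_ne h.ne, add_zero]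
  · subst h
    simp
  · rw [if_neg (not_lt.2 h.le), if_neg h.ne', Pi.single_eq_of_ne h.ne', add_zero,
      if_neg (not_lt.2 h.le), if_neg h.ne']

lemma seg_gauge (γ : (Fin D → ZMod l) → G) (U : Link D l → G) (x : Fin D → ZMod l) (i : Fin D)
    (n : ℕ) : seg (gauge γ U) x i n =
      γ (qp x i 0) * seg U x i n * (γ (qp x i ((n : ℕ) : ZMod l)))⁻¹ := by
  simp only [seg]
  rw [tele n _ (fun s : Fin n => U (qp x i ((s : ℕ) : ZMod l), i))
    (fun s => γ (qp x i ((s : ℕ) : ZMod l))) (fun s => by
      simp only [Q77.LU.gauge]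
      rw [qp_add])]
  simp

lemma pth_gauge [NeZero l] (γ : (Fin D → ZMod l) → G) (U : Link D l → G) (x : Fin D → ZMod l) :
    pth (gauge γ U) x = γ 0 * pth U x * (γ x)⁻¹ := by
  rw [pth_eq, pth_eq, tele D _ (fun i : Fin D => seg U x i (x i).val)
    (fun k => γ (pp x k)) (fun i => by
      rw [seg_gauge, qp_zero, qp_val])]
  rw [pp_zero, pp_top]

/-- the links of the path belong to the tree -/
lemma inT_qp [NeZero l] (x : Fin D → ZMod l) (i : Fin D) (s : ℕ) (hs : s < (x i).val) :
    inT (qp x i ((s : ℕ) : ZMod l), i) := by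
  refine ⟨fun j hj => ?_, ?_⟩
  · simp only [qp]
    rw [if_neg (not_lt.2 (le_of_lt hj)), if_neg (ne_of_gt hj)]
  · simp only [qp, lt_irrefl, if_false, if_true]
    intro h
    have h1 : (((s + 1 : ℕ) : ℕ) : ZMod l) = 0 := by
      push_cast
      rw [h]
      ring
    rw [ZMod.natCast_eq_zero_iff] at h1
    have h2 := Nat.le_of_dvd (Nat.succ_pos s) h1
    have h3 := ZMod.val_lt (x i)
    omega

/-- the transport depends on the tree links only -/
lemma pth_congr [NeZero l] {U U' : Link D l → G} (h : ∀ e, inT e → U e = U' e)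
    (x : Fin D → ZMod l) : pth U x = pth U' x := by
  rw [pth_eq, pth_eq]
  congr 2
  funext i
  simp only [seg]
  congr 2
  funext s
  exact h _ (inT_qp x i s s.2)

lemma pth_one [NeZero l] {U : Link D l → G} (h : ∀ e, inT e → U e = 1)
    (x : Fin D → ZMod l) : pth U x = 1 := by
  rw [pth_congr (U' := fun _ => 1) h, pth_eq]
  apply prod_ofFn_one
  intro i
  simp only [seg]
  exact prod_ofFn_one _ _ fun _ => rfl

lemma val_succ [NeZero l] (a : ZMod l) (h : a ≠ -1) : (a + 1).val = a.val + 1 := by
  have h1 : a.val + 1 < l := by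
    have h2 := ZMod.val_lt a
    by_contra hcon
    have h3 : a.val + 1 = l := by omega
    apply h
    have h4 : ((a.val + 1 : ℕ) : ZMod l) = 0 := by rw [h3]; simp
    push_cast at h4
    rw [ZMod.natCast_val, ZMod.cast_id', id] at h4
    exact eq_neg_of_add_eq_zero_left h4
  have h5 : ((a.val + 1 : ℕ) : ZMod l) = a + 1 := by
    push_cast
    rw [ZMod.natCast_val, ZMod.cast_id', id]
  rw [← h5, ZMod.val_natCast, Nat.mod_eq_of_lt h1]

/-- the transport along a tree link -/
lemma pth_tree [NeZero l] (U : Link D l → G) (e : Link D l) (he : inT e) :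
    pth U (e.1 + unitv e.2) = pth U e.1 * U e := by
  obtain ⟨y, i⟩ := e
  obtain ⟨h0, h1⟩ := he
  simp only at h0 h1
  rw [pth_eq, pth_eq]
  apply prod_ofFn_change D _ _ i
  · intro j hj
    have e1 : (y + (unitv i : Fin D → ZMod l)) j = y j := by
      simp only [Pi.add_apply, unitv]
      rw [Pi.single_eq_of_ne hj.ne, add_zero]
    simp only [e1, seg]
    congr 2
    funext s
    congr 2
    funext j'
    simp only [qp]
    by_cases h : j' < j
    · rw [if_pos h, if_pos h]
      simp only [Pi.add_apply, unitv]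
      rw [Pi.single_eq_of_ne (lt_trans h hj).ne, add_zero]
    · rw [if_neg h, if_neg h]
      rfl
  · have e1 : (y + (unitv i : Fin D → ZMod l)) i = y i + 1 := by
      simp [unitv]
    have e2 : ((y + (unitv i : Fin D → ZMod l)) i).val = (y i).val + 1 := by rw [e1, val_succ _ h1]
    have e3 : ∀ s : ZMod l, qp (y + unitv i) i s = qp y i s := by
      intro s
      funext j'
      simp only [qp]
      by_cases h : j' < i
      · rw [if_pos h, if_pos h]
        simp only [Pi.add_apply, unitv]
        rw [Pi.single_eq_of_ne h.ne, add_zero]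
      · rw [if_neg h, if_neg h]
    have e4 : qp y i (((y i).val : ℕ) : ZMod l) = y := by
      rw [qp_val]
      funext j'
      simp only [pp]
      by_cases h : (j' : ℕ) < i + 1
      · rw [if_pos h]
      · rw [if_neg h]
        exact (h0 j' (Fin.lt_def.2 (by omega))).symm
    simp only [e2]
    simp only [seg, e3]
    rw [List.ofFn_succ_last, List.prod_append]
    simp only [Fin.val_castSucc, Fin.val_last, List.prod_cons, List.prod_nil, mul_one, e4]
  · intro j hj
    have e1 : y j = 0 := h0 j hj
    have e2 : (y + (unitv i : Fin D → ZMod l)) j = 0 := by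
      simp only [Pi.add_apply, unitv]
      rw [Pi.single_eq_of_ne (ne_of_gt hj), add_zero, e1]
    constructor
    · simp only [e1, ZMod.val_zero]
      simp [seg]
    · simp only [e2, ZMod.val_zero]
      simp [seg]

lemma not_tree_centre {e : Link D l} (he : inT e) (z : Fin D → G) (U : Link D l → G) :
    centre z U e = U e := by
  simp only [centre]
  rw [if_neg he.2]

lemma pth_centre [NeZero l] (z : Fin D → G) (U : Link D l → G) (x : Fin D → ZMod l) :
    pth (centre z U) x = pth U x :=
  pth_congr (fun _ he => not_tree_centre he z U) x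

end tree

theorem t_TGA : S_TGA := by
  intro N D l _ G U
  refine ⟨fun e he => ?_, fun γ => ?_, fun z hz => ?_, fun h => ?_⟩
  · simp only [tg, Q77.LU.gauge]
    rw [pth_tree U e he]
    group
  · funext e
    simp only [tg, Q77.LU.gauge]
    rw [pth_gauge, pth_gauge]
    group
  · funext e
    simp only [tg, Q77.LU.gauge, centre]
    rw [pth_centre, pth_centre]
    split_ifs with h
    · have h1 := Subgroup.mem_center_iff.1 (hz e.2) (pth U e.1)
      rw [← mul_assoc, h1]
      group
    · rfl
  · funext e
    simp only [tg, Q77.LU.gauge]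
    rw [pth_one h, pth_one h]
    simp

end

end Pool.Agent.Q58.LU
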