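import Pool.Agent.Q58.LU.Bas
import Pool.Agent.Q58.LU.Tga

/-!
# Project LU, job TREE: integration in the tree gauge
-/

set_option autoImplicit false

namespace Pool.Agent.Q58.LU

open MeasureTheory Matrix Set Filter Topology Pool.Agent.Q77.LU
open scoped ContDiff Matrix.Norms.Frobenius

noncomputable section

section

variable {N D l : ℕ} {G : Subgroup (UU N)}

open scoped Classical in
/-- joining the tree part and the rest -/
def joinT (T : {e : Link D l // inT e} → G) (V : NT D l → G) : Link D l → G :=
  fun e => if h : inT e then T ⟨e, h⟩ else V ⟨e, h⟩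

lemma joinT_tree (T : {e : Link D l // inT e} → G) (V : NT D l → G) {e : Link D l}
    (h : inT e) : joinT T V e = T ⟨e, h⟩ := by
  simp only [joinT]
  rw [dif_pos h]

lemma joinT_nt (T : {e : Link D l // inT e} → G) (V : NT D l → G) {e : Link D l}
    (h : ¬ inT e) : joinT T V e = V ⟨e, h⟩ := by
  simp only [joinT]
  rw [dif_neg h]

/-- the translation of the other links -/
def shiftT (T : {e : Link D l // inT e} → G) (V : NT D l → G) : NT D l → G :=
  fun e => pth (joinT T fun _ => 1) e.1.1 * V e *
    (pth (joinT T fun _ => 1) (e.1.1 + unitv e.1.2))⁻¹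

lemma tg_joinT [NeZero l] (T : {e : Link D l // inT e} → G) (V : NT D l → G) :
    tg (joinT T V) = ext (shiftT T V) := by
  have hp : ∀ x, pth (joinT T V) x = pth (joinT T fun _ => 1) x := fun x =>
    pth_congr (fun e he => by rw [joinT_tree T V he, joinT_tree T _ he]) x
  funext e
  by_cases h : inT e
  · rw [(t_TGA N D l G (joinT T V)).1 e h]
    simp only [Q77.LU.ext]
    rw [dif_neg (not_not.2 h)]
  · simp only [Q77.LU.ext, tg, Q77.LU.gauge, shiftT]
    rw [dif_pos h, hp, hp, joinT_nt T V h]

end

theorem tree_main {N D l : ℕ} [NeZero l] {G : Subgroup (UU N)} (hG : IsClosed (G : Set (UU N)))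
    [MeasurableSpace G] [BorelSpace G] (μ : Measure G) [IsProbabilityMeasure μ]
    [μ.IsHaarMeasure] (F : (Link D l → G) → ℝ) (hF : Continuous F) (hinv : GaugeInv F) :
    ∫ U, F U ∂(Measure.pi fun _ : Link D l => μ) =
      ∫ V, F (ext V) ∂(Measure.pi fun _ : NT D l => μ) := by
  classical
  have : CompactSpace G := compactG hG
  have : μ.IsMulRightInvariant := right_inv μ
  have hmp := measurePreserving_piEquivPiSubtypeProd (fun _ : Link D l => μ)
    (fun e : Link D l => inT e)
  set E := MeasurableEquiv.piEquivPiSubtypeProd (fun _ : Link D l => (G : Type))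
    (fun e : Link D l => inT e) with hE
  have hEs : ∀ q : ({e : Link D l // inT e} → G) × (NT D l → G), E.symm q = joinT q.1 q.2 := by
    intro q
    funext e
    by_cases h : inT e
    · rw [joinT_tree _ _ h]
      simp [hE, MeasurableEquiv.piEquivPiSubtypeProd, Equiv.piEquivPiSubtypeProd, h]
    · rw [joinT_nt _ _ h]
      simp [hE, MeasurableEquiv.piEquivPiSubtypeProd, Equiv.piEquivPiSubtypeProd, h]
  obtain ⟨C, hC⟩ : ∃ C, ∀ U, ‖F U‖ ≤ C := by
    have h1 := (isCompact_univ (X := Link D l → G)).exists_bound_of_continuousOn
      hF.continuousOn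
    obtain ⟨C, hC⟩ := h1
    exact ⟨C, fun U => hC U (mem_univ _)⟩
  have hFm : Measurable F := hF.measurable
  have h1 : ∫ U, F U ∂(Measure.pi fun _ : Link D l => μ) =
      ∫ q, F (E.symm q) ∂((Measure.pi fun _ : {e : Link D l // inT e} => μ).prod
        (Measure.pi fun _ : NT D l => μ)) := by
    have h2 := (hmp.symm).integral_comp' (g := F)
    rw [← h2]
  rw [h1, integral_prod]
  · have h3 : ∀ T : {e : Link D l // inT e} → G,
        ∫ V, F (E.symm (T, V)) ∂(Measure.pi fun _ : NT D l => μ) =
          ∫ V, F (ext V) ∂(Measure.pi fun _ : NT D l => μ) := by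
      intro T
      have h4 : ∀ V, F (E.symm (T, V)) = F (ext (shiftT T V)) := by
        intro V
        rw [hEs, ← tg_joinT]
        exact (hinv _ _).symm
      simp only [h4]
      have h5 : MeasurePreserving (shiftT T) (Measure.pi fun _ : NT D l => μ)
          (Measure.pi fun _ : NT D l => μ) := by
        apply measurePreserving_pi (fun _ : NT D l => μ) (fun _ : NT D l => μ)
          (f := fun e g => pth (joinT T fun _ => 1) e.1.1 * g *
            (pth (joinT T fun _ => 1) (e.1.1 + unitv e.1.2))⁻¹)
        intro e
        exact (measurePreserving_mul_right μ _).comp (measurePreserving_mul_left μ _)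
      have hext : Measurable fun V : NT D l → G => F (ext V) := by
        apply hFm.comp
        apply measurable_pi_lambda
        intro e
        by_cases h : ¬ inT e
        · have : (fun V : NT D l → G => ext V e) = fun V => V ⟨e, h⟩ := by
            funext V
            simp only [Q77.LU.ext]
            rw [dif_pos h]
          rw [this]
          exact measurable_pi_apply _
        · have : (fun V : NT D l → G => ext V e) = fun _ => 1 := by
            funext V
            simp only [Q77.LU.ext]
            rw [dif_neg h]
          rw [this]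
          exact measurable_const
      rw [← integral_map (f := fun V => F (ext V)) h5.measurable.aemeasurable
        (by rw [h5.map_eq]; exact hext.aestronglyMeasurable), h5.map_eq]
    simp only [h3]
    rw [integral_const]
    simp
  · apply Integrable.of_bound (C := C)
    · exact (hFm.comp E.symm.measurable).aestronglyMeasurable
    · exact Filter.Eventually.of_forall fun q => hC _

theorem t_TREE (_h : S_TGA) : S_TREE := by
  intro N D l _ G hG _ _ μ _ _ F hF hinv
  exact tree_main hG μ F hF hinv

end

end Pool.Agent.Q58.LU
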