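import Pool.Agent.Q58.LU.Bas
import Pool.Agent.Q58.LU.Tga

/-!
# Project LU, job ZERO: the zeros of `tau` in the tree gauge
-/

set_option autoImplicit false

namespace Pool.Agent.Q58.LU

open MeasureTheory Matrix Set Filter Topology Pool.Agent.Q77.LU
open scoped ContDiff Matrix.Norms.Frobenius

noncomputable section

lemma fro2_eq {N : ℕ} (M : Mt N) : fro2 M = ∑ j, ∑ i, ‖M i j‖ ^ 2 := by
  simp only [fro2, trace, Complex.re_sum]
  refine Finset.sum_congr rfl fun j _ => ?_
  rw [diag_apply, mul_apply, Complex.re_sum]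
  refine Finset.sum_congr rfl fun i _ => ?_
  rw [conjTranspose_apply, ← Complex.normSq_eq_norm_sq, Complex.normSq_apply]
  simp [Complex.mul_re]

lemma fro2_nonneg {N : ℕ} (M : Mt N) : 0 ≤ fro2 M := by
  rw [fro2_eq]
  positivity

lemma fro2_eq_zero {N : ℕ} {M : Mt N} (h : fro2 M = 0) : M = 0 := by
  rw [fro2_eq, Finset.sum_eq_zero_iff_of_nonneg (fun j _ => by positivity)] at h
  ext i j
  have h1 := h j (Finset.mem_univ _)
  rw [Finset.sum_eq_zero_iff_of_nonneg (fun j _ => by positivity)] at h1
  have h2 := h1 i (Finset.mem_univ _)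
  simpa using h2

/-- for a unitary matrix -/
lemma re_tr_one_sub {N : ℕ} {P : Mt N} (h : Pᴴ * P = 1) :
    (trace (1 - P)).re = 1 / 2 * fro2 (1 - P) := by
  have e1 : (1 - P)ᴴ * (1 - P) = (1 - P) + (1 - P)ᴴ := by
    rw [conjTranspose_sub, conjTranspose_one]
    have : (1 - Pᴴ) * (1 - P) = 1 - P - Pᴴ + Pᴴ * P := by noncomm_ring
    rw [this, h]
    abel
  simp only [fro2]
  rw [e1, trace_add, trace_conjTranspose, Complex.add_re]
  simp only [Complex.star_def, Complex.conj_re]
  ring

section

variable {N n D l : ℕ} {G : Subgroup (UU N)}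

lemma mt_star_mul (g : G) : (mt g)ᴴ * mt g = 1 :=
  mul_eq_one_comm.1 (Matrix.mem_unitaryGroup_iff.1 (g : UU N).2)

lemma mt_mul_star (g : G) : mt g * (mt g)ᴴ = 1 :=
  Matrix.mem_unitaryGroup_iff.1 (g : UU N).2

lemma mt_one : mt (1 : G) = 1 := rfl

lemma mt_mul (g h : G) : mt (g * h) = mt g * mt h := rfl

lemma mt_inv (g : G) : mt g⁻¹ = (mt g)ᴴ := rfl

lemma mt_inj {g h : G} (e : mt g = mt h) : g = h := Subtype.ext (Subtype.ext e)

/-- the term of a plaquette in the magnetic energy -/
lemma re_plaq (U : Link D l → G) (x : Fin D → ZMod l) (i j : Fin D) :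
    (trace (1 - mt (plaq U x i j))).re = 1 / 2 * fro2 (1 - mt (plaq U x i j)) :=
  re_tr_one_sub (mt_star_mul _)

lemma magnetic_nonneg [NeZero l] (U : Link D l → G) : 0 ≤ magnetic U := by
  simp only [magnetic]
  refine Finset.sum_nonneg fun x _ => Finset.sum_nonneg fun i _ => Finset.sum_nonneg fun j _ => ?_
  split_ifs
  · rw [re_plaq]
    have := fro2_nonneg (1 - mt (plaq U x i j))
    linarith
  · exact le_refl _

lemma plaq_of_magnetic [NeZero l] {U : Link D l → G} (h : magnetic U = 0) (x : Fin D → ZMod l)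
    {i j : Fin D} (hij : i < j) : plaq U x i j = 1 := by
  have h0 : ∀ x : Fin D → ZMod l, ∀ i j : Fin D,
      0 ≤ (if i < j then (trace (1 - mt (plaq U x i j))).re else 0) := by
    intro x i j
    split_ifs
    · rw [re_plaq]
      have := fro2_nonneg (1 - mt (plaq U x i j))
      linarith
    · exact le_refl _
  simp only [magnetic] at h
  rw [Finset.sum_eq_zero_iff_of_nonneg (fun x _ => Finset.sum_nonneg fun i _ =>
    Finset.sum_nonneg fun j _ => h0 x i j)] at h
  have h1 := h x (Finset.mem_univ _)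
  rw [Finset.sum_eq_zero_iff_of_nonneg (fun i _ => Finset.sum_nonneg fun j _ => h0 x i j)] at h1
  have h2 := h1 i (Finset.mem_univ _)
  rw [Finset.sum_eq_zero_iff_of_nonneg (fun j _ => h0 x i j)] at h2
  have h3 := h2 j (Finset.mem_univ _)
  rw [if_pos hij, re_plaq] at h3
  have h4 : fro2 (1 - mt (plaq U x i j)) = 0 := by linarith
  have h5 := fro2_eq_zero h4
  apply mt_inj
  rw [mt_one]
  exact (sub_eq_zero.1 h5).symm

/-- flatness -/
lemma flat_of_magnetic [NeZero l] {U : Link D l → G} (h : magnetic U = 0) (x : Fin D → ZMod l)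
    (i j : Fin D) : U (x, i) * U (x + unitv i, j) = U (x, j) * U (x + unitv j, i) := by
  rcases lt_trichotomy i j with hij | hij | hij
  · have h1 := plaq_of_magnetic h x hij
    simp only [plaq] at h1
    rw [mul_inv_eq_one, mul_inv_eq_iff_eq_mul] at h1
    exact h1
  · subst hij
    rfl
  · have h1 := plaq_of_magnetic h x hij
    simp only [plaq] at h1
    rw [mul_inv_eq_one, mul_inv_eq_iff_eq_mul] at h1
    exact h1.symm

lemma tau_parts [NeZero l] {B : LieBasis G n} {U : Link D l → G} (h : tau B U = 0) :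
    magnetic U = 0 ∧ ∀ x i a, mt (wind U x i) * B.X a * (mt (wind U x i))ᴴ = B.X a := by
  simp only [tau] at h
  have h1 := magnetic_nonneg U
  have h2 : 0 ≤ ∑ x : Fin D → ZMod l, ∑ i : Fin D, ∑ a : Fin n,
      fro2 (mt (wind U x i) * B.X a * (mt (wind U x i))ᴴ - B.X a) :=
    Finset.sum_nonneg fun x _ => Finset.sum_nonneg fun i _ => Finset.sum_nonneg fun a _ =>
      fro2_nonneg _
  have h3 : ∑ x : Fin D → ZMod l, ∑ i : Fin D, ∑ a : Fin n,
      fro2 (mt (wind U x i) * B.X a * (mt (wind U x i))ᴴ - B.X a) = 0 := by linarith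
  refine ⟨by linarith, fun x i a => ?_⟩
  rw [Finset.sum_eq_zero_iff_of_nonneg (fun x _ => Finset.sum_nonneg fun i _ =>
    Finset.sum_nonneg fun a _ => fro2_nonneg _)] at h3
  have h4 := h3 x (Finset.mem_univ _)
  rw [Finset.sum_eq_zero_iff_of_nonneg (fun i _ =>
    Finset.sum_nonneg fun a _ => fro2_nonneg _)] at h4
  have h5 := h4 i (Finset.mem_univ _)
  rw [Finset.sum_eq_zero_iff_of_nonneg (fun a _ => fro2_nonneg _)] at h5
  exact sub_eq_zero.1 (fro2_eq_zero (h5 a (Finset.mem_univ _)))

/-- moving a link against a direction with trivial links -/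
lemma slide [NeZero l] {U : Link D l → G} (h : magnetic U = 0) {i j : Fin D}
    (hj : ∀ x : Fin D → ZMod l, x j ≠ -1 → U (x, j) = 1) (hij : j ≠ i) {x : Fin D → ZMod l}
    (hx : x j ≠ 0) : U (x, i) = U (x - unitv j, i) := by
  have h1 := flat_of_magnetic h (x - unitv j) i j
  have e1 : (x - (unitv j : Fin D → ZMod l)) j ≠ -1 := by
    simp only [Pi.sub_apply, unitv, Pi.single_eq_same]
    intro h2
    apply hx
    linear_combination h2
  have e2 : (x - (unitv j : Fin D → ZMod l) + (unitv i : Fin D → ZMod l)) j ≠ -1 := by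
    simp only [Pi.add_apply, unitv, Pi.single_eq_of_ne hij, add_zero]
    exact e1
  rw [hj _ e1, hj _ e2, sub_add_cancel, mul_one, one_mul] at h1
  exact h1.symm

lemma val_lt_of_sub [NeZero l] {x : Fin D → ZMod l} {j : Fin D} (hx : x j ≠ 0) :
    ((x - (unitv j : Fin D → ZMod l)) j).val < (x j).val := by
  have e1 : (x - (unitv j : Fin D → ZMod l)) j ≠ -1 := by
    simp only [Pi.sub_apply, unitv, Pi.single_eq_same]
    intro h2
    apply hx
    linear_combination h2
  have e2 : x j = (x - (unitv j : Fin D → ZMod l)) j + 1 := by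
    simp [unitv]
  have e3 := val_succ _ e1
  rw [← e2] at e3
  omega

/-- the sum of the coordinates decreases -/
lemma sum_sub_lt [NeZero l] {x : Fin D → ZMod l} {j : Fin D} (hx : x j ≠ 0) :
    ∑ k, ((x - (unitv j : Fin D → ZMod l)) k).val < ∑ k, (x k).val := by
  apply Finset.sum_lt_sum
  · intro k _
    by_cases hk : k = j
    · subst hk
      exact (val_lt_of_sub hx).le
    · simp [unitv, Pi.single_eq_of_ne hk]
  · exact ⟨j, Finset.mem_univ _, val_lt_of_sub hx⟩

/-- the noncrossing links are trivial -/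
lemma noncross [NeZero l] {U : Link D l → G} (h : magnetic U = 0)
    (ht : ∀ e, inT e → U e = 1) (i : Fin D) :
    ∀ x : Fin D → ZMod l, x i ≠ -1 → U (x, i) = 1 := by
  induction i using WellFoundedGT.induction with
  | ind i ih =>
    intro x
    induction hs : ∑ k, (x k).val using Nat.strong_induction_on generalizing x with
    | _ s ihs =>
      intro hx
      by_cases hc : ∀ j, i < j → x j = 0
      · exact ht (x, i) ⟨hc, hx⟩
      · push Not at hc
        obtain ⟨j, hj, hxj⟩ := hc
        rw [slide h (ih j hj) (ne_of_gt hj) hxj]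
        apply ihs _ (hs ▸ sum_sub_lt hxj) _ rfl
        simp only [Pi.sub_apply, unitv, Pi.single_eq_of_ne hj.ne, sub_zero]
        exact hx

/-- the crossing links depend on the direction only -/
lemma cross [NeZero l] {U : Link D l → G} (h : magnetic U = 0)
    (ht : ∀ e, inT e → U e = 1) (i : Fin D) :
    ∀ x : Fin D → ZMod l, x i = -1 → U (x, i) = U (-unitv i, i) := by
  intro x
  induction hs : ∑ k, (x k).val using Nat.strong_induction_on generalizing x with
  | _ s ihs =>
    intro hx
    by_cases hc : ∀ j, j ≠ i → x j = 0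
    · have : x = -unitv i := by
        funext j
        by_cases hj : j = i
        · subst hj
          simp [unitv, hx]
        · simp [unitv, Pi.single_eq_of_ne hj, hc j hj]
      rw [this]
    · push Not at hc
      obtain ⟨j, hj, hxj⟩ := hc
      rw [slide h (noncross h ht j) hj hxj]
      apply ihs _ (hs ▸ sum_sub_lt hxj) _ rfl
      simp only [Pi.sub_apply, unitv, Pi.single_eq_of_ne hj.symm, sub_zero]
      exact hx

lemma wind_zero {l : ℕ} [NeZero l] {U : Link D l → G} (h : magnetic U = 0)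
    (ht : ∀ e, inT e → U e = 1) (i : Fin D) : wind U 0 i = U (-unitv i, i) := by
  obtain ⟨m, hm⟩ : ∃ m, l = m + 1 := ⟨l - 1, by have := NeZero.ne l; omega⟩
  subst hm
  simp only [wind]
  rw [List.ofFn_succ_last, List.prod_append]
  have e1 : (List.ofFn fun s : Fin m => U (0 + ((s.castSucc : Fin (m + 1)) : ℕ) • unitv i, i)).prod
      = 1 := by
    apply prod_ofFn_one
    intro s
    apply noncross h ht
    rw [Fin.val_castSucc, zero_add, Pi.smul_apply]
    simp only [unitv, Pi.single_eq_same, nsmul_eq_mul, mul_one]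
    intro h1
    have h2 : (((s : ℕ) + 1 : ℕ) : ZMod (m + 1)) = 0 := by
      push_cast
      rw [h1]
      ring
    rw [ZMod.natCast_eq_zero_iff] at h2
    have h3 := Nat.le_of_dvd (Nat.succ_pos _) h2
    have := s.2
    omega
  rw [e1, one_mul]
  simp only [Fin.val_last, List.prod_cons, List.prod_nil, mul_one]
  congr 2
  funext j
  simp only [Pi.add_apply, Pi.zero_apply, zero_add, Pi.smul_apply, Pi.neg_apply, unitv]
  by_cases hj : j = i
  · subst hj
    rw [Pi.single_eq_same, nsmul_eq_mul, mul_one]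
    have : ((m + 1 : ℕ) : ZMod (m + 1)) = 0 := ZMod.natCast_self _
    push_cast at this
    exact eq_neg_of_add_eq_zero_left this
  · rw [Pi.single_eq_of_ne hj]
    simp

end

theorem t_ZERO (h1 : S_ADC) : S_ZERO := by
  intro N n D l _ G hG hc B U ht hU
  obtain ⟨hm, hw⟩ := tau_parts hU
  refine ⟨fun i => U (-unitv i, i), fun i => ?_, ?_⟩
  · show U (-unitv i, i) ∈ Subgroup.center G
    rw [← wind_zero hm ht i]
    exact h1 N n G hG hc B _ fun a => hw 0 i a
  · funext e
    obtain ⟨x, i⟩ := e
    simp only [centre]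
    split_ifs with h
    · rw [cross hm ht i x h, mul_one]
    · exact noncross hm ht i x h

end

end Pool.Agent.Q58.LU
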